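import Pool.Agent.Lib_MP_32c225_ag.Final

/-!
# MP_32c225_ag: no uniform volume decay of Kähler-Einstein potentials for curves of genus two
-/

open scoped LinearAlgebra.Projectivization ENNReal

namespace Pool.Agent.Results.MP_32c225_ag.GenusTwo

open _root_.MP_32c225_ag

/-- For all `C, α > 0` there are a curve `Y_z` of genus two in the family and `s > 0` such that
every Kähler-Einstein potential `u` of `Y_z` with `sup u = 0` has `Vol {u < -s} > C e^{-α s}`. -/
theorem result : ∀ C > 0, ∀ α > 0, ∃ z ∈ Base, ∃ s > 0, ∀ u : ℙ ℂ (Fin 5 → ℂ) → ℝ,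
    IsKEPotential z u → IsLUB (u '' Curve z) 0 →
      ENNReal.ofReal (C * Real.exp (-(α * s))) < vol z {P | P ∈ Curve z ∧ u P < -s} :=
  answer

end Pool.Agent.Results.MP_32c225_ag.GenusTwo
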